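import Mathlib

/-!
# Permuted expansions: a counterexample in a Hilbert space

We work in the Hilbert space `ℓ²(ℕ ⊕ ℕ, 𝕜)` and in its closed subspace `E` of all `y` whose
coordinate `inr k` is the sum of the coordinates `inl i`, `i` in the `k`-th dyadic block.
The sequence is `x i = e (inl i) + e (inr (block of i))`.
-/

open Filter Topology

namespace Pool.Agent.Results.MP_514f39_an.HilbertCounterexample

/-- Partial sums of the series `∑ α (σ i) • x (σ i)` converge to `y`. -/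
def HasPermExpansion {𝕜 E : Type} [RCLike 𝕜] [NormedAddCommGroup E] [NormedSpace 𝕜 E]
    (x : ℕ → E) (α : ℕ → 𝕜) (σ : Equiv.Perm ℕ) (y : E) : Prop :=
  Tendsto (fun n => ∑ i ∈ Finset.range n, α (σ i) • x (σ i)) atTop (𝓝 y)

/-- Property (U): each `y` has a permuted expansion, and the scalar sequence is the same for
all permuted expansions of `y`. -/
def PropertyU (𝕜 : Type) {E : Type} [RCLike 𝕜] [NormedAddCommGroup E] [NormedSpace 𝕜 E]
    (x : ℕ → E) : Prop :=
  ∀ y : E, ∃ α : ℕ → 𝕜, (∃ σ : Equiv.Perm ℕ, HasPermExpansion x α σ y) ∧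
    ∀ β : ℕ → 𝕜, (∃ π : Equiv.Perm ℕ, HasPermExpansion x β π y) → β = α

/-- Schauder basis: each `y` has exactly one norm convergent expansion. -/
def IsSchauderBasis (𝕜 : Type) {E : Type} [RCLike 𝕜] [NormedAddCommGroup E] [NormedSpace 𝕜 E]
    (x : ℕ → E) : Prop :=
  ∀ y : E, ∃! α : ℕ → 𝕜,
    Tendsto (fun n => ∑ i ∈ Finset.range n, α i • x i) atTop (𝓝 y)

/-- Minimality: no `x m` lies in the closed linear span of the others. -/
def IsMinimal (𝕜 : Type) {E : Type} [RCLike 𝕜] [NormedAddCommGroup E] [NormedSpace 𝕜 E]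
    (x : ℕ → E) : Prop :=
  ∀ m : ℕ, x m ∉ closure (Submodule.span 𝕜 (x '' {n | n ≠ m}) : Set E)

section Construction

variable (𝕜 : Type) [RCLike 𝕜]

/-- The block index of `i`. -/
def blkOf (i : ℕ) : ℕ := Nat.log 2 (i + 1)

/-- The `k`-th block. -/
def blk (k : ℕ) : Finset ℕ := Finset.Ico (2 ^ k - 1) (2 ^ (k + 1) - 1)

lemma mem_blk {k i : ℕ} : i ∈ blk k ↔ blkOf i = k := by
  unfold blk blkOf
  rw [Finset.mem_Ico, Nat.log_eq_iff (by right; constructor <;> omega)]
  have h1 : 1 ≤ 2 ^ k := Nat.one_le_two_pow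
  have h2 : 1 ≤ 2 ^ (k + 1) := Nat.one_le_two_pow
  omega

/-- The ambient Hilbert space. -/
abbrev H : Type := lp (fun _ : ℕ ⊕ ℕ => 𝕜) 2

/-- The closed subspace. -/
def Esub : Submodule 𝕜 (H 𝕜) where
  carrier := {y | ∀ k, y (Sum.inr k) = ∑ i ∈ blk k, y (Sum.inl i)}
  add_mem' := by
    intro a b ha hb k
    have := ha k
    have := hb k
    simp_all [Finset.sum_add_distrib]
  zero_mem' := by intro k; simp
  smul_mem' := by
    intro c a ha k
    have := ha k
    simp_all [Finset.mul_sum]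

lemma cont_coord (j : ℕ ⊕ ℕ) : Continuous fun y : H 𝕜 => y j :=
  (lp.evalCLM 𝕜 (fun _ : ℕ ⊕ ℕ => 𝕜) 2 j).continuous

lemma isClosed_Esub : IsClosed (Esub 𝕜 : Set (H 𝕜)) := by
  have : (Esub 𝕜 : Set (H 𝕜)) =
      ⋂ k, {y : H 𝕜 | y (Sum.inr k) = ∑ i ∈ blk k, y (Sum.inl i)} := by
    ext y; simp [Esub]
  rw [this]
  refine isClosed_iInter fun k => isClosed_eq (cont_coord 𝕜 _) ?_
  exact continuous_finsetSum _ fun i _ => cont_coord 𝕜 _

/-- The vector `e (inl i) + e (inr (blkOf i))`. -/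
noncomputable def xH (i : ℕ) : H 𝕜 :=
  lp.single 2 (Sum.inl i) (1 : 𝕜) + lp.single 2 (Sum.inr (blkOf i)) (1 : 𝕜)

lemma xH_inl (i j : ℕ) : xH 𝕜 i (Sum.inl j) = if j = i then 1 else 0 := by
  simp [xH, lp.single_apply, Pi.single_apply]

lemma xH_inr (i k : ℕ) : xH 𝕜 i (Sum.inr k) = if k = blkOf i then 1 else 0 := by
  simp [xH, lp.single_apply, Pi.single_apply]

lemma xH_mem (i : ℕ) : xH 𝕜 i ∈ Esub 𝕜 := by
  intro k
  rw [xH_inr]
  simp only [xH_inl]
  rw [Finset.sum_ite_eq']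
  simp only [mem_blk, eq_comm]

/-- The sequence, as a sequence in the closed subspace. -/
noncomputable def x (i : ℕ) : Esub 𝕜 := ⟨xH 𝕜 i, xH_mem 𝕜 i⟩

variable {𝕜}

lemma sum_inl (A : Finset ℕ) (c : ℕ → 𝕜) (j : ℕ) :
    ((∑ i ∈ A, c i • x 𝕜 i : Esub 𝕜) : H 𝕜) (Sum.inl j) = if j ∈ A then c j else 0 := by
  have h : ((∑ i ∈ A, c i • x 𝕜 i : Esub 𝕜) : H 𝕜) = ∑ i ∈ A, c i • xH 𝕜 i := by
    simp [x]
  rw [h]
  simp only [lp.coeFn_sum, Finset.sum_apply, lp.coeFn_smul, Pi.smul_apply, xH_inl, smul_eq_mul, mul_ite, mul_one, mul_zero, Finset.sum_ite_eq]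

lemma sum_inr (A : Finset ℕ) (c : ℕ → 𝕜) (k : ℕ) :
    ((∑ i ∈ A, c i • x 𝕜 i : Esub 𝕜) : H 𝕜) (Sum.inr k) = ∑ i ∈ A ∩ blk k, c i := by
  have h : ((∑ i ∈ A, c i • x 𝕜 i : Esub 𝕜) : H 𝕜) = ∑ i ∈ A, c i • xH 𝕜 i := by
    simp [x]
  rw [h]
  simp only [lp.coeFn_sum, Finset.sum_apply, lp.coeFn_smul, Pi.smul_apply,
    xH_inr, smul_eq_mul, mul_ite, mul_one, mul_zero]
  rw [← Finset.sum_filter]
  congr 1
  ext i
  simp only [Finset.mem_filter, Finset.mem_inter, mem_blk, eq_comm]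

lemma sum_perm (σ : Equiv.Perm ℕ) (n : ℕ) (c : ℕ → 𝕜) :
    ∑ i ∈ Finset.range n, c (σ i) • x 𝕜 (σ i) =
      ∑ j ∈ (Finset.range n).map σ.toEmbedding, c j • x 𝕜 j := by
  rw [Finset.sum_map]; rfl

/-- Coefficients of a permuted expansion are the coordinates. -/
lemma coeff_eq {σ : Equiv.Perm ℕ} {c : ℕ → 𝕜} {y : Esub 𝕜}
    (h : Tendsto (fun n => ∑ i ∈ Finset.range n, c (σ i) • x 𝕜 (σ i)) atTop (𝓝 y)) (m : ℕ) :
    c m = (y : H 𝕜) (Sum.inl m) := by
  have hc : Continuous fun z : Esub 𝕜 => (z : H 𝕜) (Sum.inl m) :=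
    (cont_coord 𝕜 (Sum.inl m)).comp continuous_subtype_val
  have h1 := (hc.tendsto y).comp h
  refine tendsto_nhds_unique (f := (fun n => c m)) tendsto_const_nhds (h1.congr' ?_)
  filter_upwards [eventually_gt_atTop (σ.symm m)] with n hn
  simp only [Function.comp]
  rw [sum_perm, sum_inl, if_pos]
  simp only [Finset.mem_map_equiv, Finset.mem_range]
  exact hn

lemma exists_next (R : Finset ℕ) (hR : R.Nonempty) (a : ℕ → 𝕜) :
    ∃ i ∈ R, ‖∑ j ∈ R.erase i, a j‖ ^ 2 ≤ ‖∑ j ∈ R, a j‖ ^ 2 + ‖a i‖ ^ 2 := by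
  by_contra hcon
  push Not at hcon
  set r := ∑ j ∈ R, a j with hr
  have key : ∀ i ∈ R, RCLike.re (inner 𝕜 r (a i)) < 0 := by
    intro i hi
    have h1 := hcon i hi
    have h2 : ∑ j ∈ R.erase i, a j = r - a i := by
      rw [hr, ← Finset.sum_erase_add R a hi]; ring
    rw [h2, norm_sub_sq (𝕜 := 𝕜)] at h1
    linarith
  have h3 : ∑ i ∈ R, RCLike.re (inner 𝕜 r (a i)) < 0 :=
    Finset.sum_neg key hR
  have h4 : ∑ i ∈ R, RCLike.re (inner 𝕜 r (a i)) = RCLike.re (inner 𝕜 r r) := by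
    rw [← map_sum, ← inner_sum, ← hr]
  rw [h4, inner_self_eq_norm_sq] at h3
  have := sq_nonneg ‖r‖
  linarith

open Classical in
/-- The next index to be used by the greedy order. -/
noncomputable def nxt (a : ℕ → 𝕜) (A : Finset ℕ) : ℕ :=
  if h : (blk (blkOf A.card) \ A).Nonempty then (exists_next _ h a).choose else 0

/-- The greedy increasing sequence of finite sets. -/
noncomputable def gs (a : ℕ → 𝕜) : ℕ → Finset ℕ
  | 0 => ∅
  | n + 1 => insert (nxt a (gs a n)) (gs a n)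

lemma nxt_spec (a : ℕ → 𝕜) (A : Finset ℕ) (h : (blk (blkOf A.card) \ A).Nonempty) :
    nxt a A ∈ blk (blkOf A.card) \ A ∧
    ‖∑ j ∈ (blk (blkOf A.card) \ A).erase (nxt a A), a j‖ ^ 2 ≤
      ‖∑ j ∈ blk (blkOf A.card) \ A, a j‖ ^ 2 + ‖a (nxt a A)‖ ^ 2 := by
  have h1 := (exists_next _ h a).choose_spec
  have h2 : nxt a A = (exists_next _ h a).choose := by
    unfold nxt; rw [dif_pos h]
  rw [h2]
  exact h1

/-- The invariant of the greedy order. -/
structure Inv (a : ℕ → 𝕜) (n : ℕ) (A : Finset ℕ) : Prop where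
  card : A.card = n
  lo : Finset.range (2 ^ (blkOf n) - 1) ⊆ A
  hi : A ⊆ Finset.range (2 ^ (blkOf n + 1) - 1)
  res : ‖∑ j ∈ blk (blkOf n) \ A, a j‖ ^ 2 ≤
    ‖∑ j ∈ blk (blkOf n), a j‖ ^ 2 + ∑ i ∈ blk (blkOf n) ∩ A, ‖a i‖ ^ 2

lemma blkOf_bounds (n : ℕ) : 2 ^ (blkOf n) - 1 ≤ n ∧ n < 2 ^ (blkOf n + 1) - 1 := by
  have : n ∈ blk (blkOf n) := mem_blk.2 rfl
  simpa [blk] using this

lemma blk_sdiff_nonempty {a : ℕ → 𝕜} {n : ℕ} {A : Finset ℕ} (h : Inv a n A) :
    (blk (blkOf n) \ A).Nonempty := by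
  have h1 : ¬ (Finset.range (2 ^ (blkOf n + 1) - 1) ⊆ A) := by
    intro h2
    have h3 := Finset.card_le_card h2
    rw [h.card, Finset.card_range] at h3
    have := (blkOf_bounds n).2
    omega
  rw [Finset.not_subset] at h1
  obtain ⟨i, hi, hiA⟩ := h1
  refine ⟨i, Finset.mem_sdiff.2 ⟨?_, hiA⟩⟩
  unfold blk
  rw [Finset.mem_Ico]
  refine ⟨?_, Finset.mem_range.1 hi⟩
  by_contra hlt
  exact hiA (h.lo (Finset.mem_range.2 (by omega)))

lemma inv_step {a : ℕ → 𝕜} {n : ℕ} {A : Finset ℕ} (h : Inv a n A) :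
    nxt a A ∉ A ∧ Inv a (n + 1) (insert (nxt a A) A) := by
  have hne := blk_sdiff_nonempty h
  have hs := nxt_spec a A (by rw [h.card]; exact hne)
  rw [h.card] at hs
  obtain ⟨h1, h2⟩ := hs
  rw [Finset.mem_sdiff] at h1
  refine ⟨h1.2, ?_⟩
  have hcard : (insert (nxt a A) A).card = n + 1 := by
    rw [Finset.card_insert_of_notMem h1.2, h.card]
  have hhi : insert (nxt a A) A ⊆ Finset.range (2 ^ (blkOf n + 1) - 1) := by
    refine Finset.insert_subset ?_ h.hi
    have := h1.1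
    unfold blk at this
    exact Finset.mem_range.2 (Finset.mem_Ico.1 this).2
  rcases Nat.lt_or_ge (n + 1) (2 ^ (blkOf n + 1) - 1) with hlt | hge
  · have hb : blkOf (n + 1) = blkOf n := by
      rw [← mem_blk]
      unfold blk
      rw [Finset.mem_Ico]
      exact ⟨by have := (blkOf_bounds n).1; omega, hlt⟩
    refine ⟨hcard, ?_, ?_, ?_⟩
    · rw [hb]; exact h.lo.trans (Finset.subset_insert _ _)
    · rw [hb]; exact hhi
    · rw [hb]
      have e1 : blk (blkOf n) \ insert (nxt a A) A = (blk (blkOf n) \ A).erase (nxt a A) := by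
        ext j; simp only [Finset.mem_sdiff, Finset.mem_insert, Finset.mem_erase]; tauto
      have e2 : blk (blkOf n) ∩ insert (nxt a A) A = insert (nxt a A) (blk (blkOf n) ∩ A) := by
        ext j
        simp only [Finset.mem_inter, Finset.mem_insert]
        constructor
        · rintro ⟨ha, hb | hb⟩
          · exact Or.inl hb
          · exact Or.inr ⟨ha, hb⟩
        · rintro (ha | ⟨ha, hb⟩)
          · rw [ha]; exact ⟨h1.1, Or.inl rfl⟩
          · exact ⟨ha, Or.inr hb⟩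
      rw [e1, e2, Finset.sum_insert (by simp [h1.2])]
      have := h.res
      linarith
  · have hn : n + 1 = 2 ^ (blkOf n + 1) - 1 := by
      have := (blkOf_bounds n).2; omega
    have hb : blkOf (n + 1) = blkOf n + 1 := by
      rw [← mem_blk]
      unfold blk
      rw [Finset.mem_Ico]
      have h5 : 1 ≤ 2 ^ (blkOf n + 1) := Nat.one_le_two_pow
      refine ⟨by omega, ?_⟩
      rw [hn, pow_succ 2 (blkOf n + 1)]
      omega
    have heq : insert (nxt a A) A = Finset.range (2 ^ (blkOf n + 1) - 1) := by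
      refine Finset.eq_of_subset_of_card_le hhi ?_
      rw [hcard, Finset.card_range]
      omega
    refine ⟨hcard, ?_, ?_, ?_⟩
    · rw [hb, heq]
    · rw [hb, heq]
      intro j hj
      rw [Finset.mem_range] at hj ⊢
      have : 2 ^ (blkOf n + 1) ≤ 2 ^ (blkOf n + 1 + 1) := Nat.pow_le_pow_right (by norm_num) (by omega)
      omega
    · rw [hb]
      have e1 : blk (blkOf n + 1) \ insert (nxt a A) A = blk (blkOf n + 1) := by
        rw [heq]
        ext j
        simp only [blk, Finset.mem_sdiff, Finset.mem_Ico, Finset.mem_range]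
        omega
      rw [e1]
      have : 0 ≤ ∑ i ∈ blk (blkOf n + 1) ∩ insert (nxt a A) A, ‖a i‖ ^ 2 :=
        Finset.sum_nonneg fun _ _ => by positivity
      linarith

lemma inv_zero (a : ℕ → 𝕜) : Inv a 0 ∅ := by
  refine ⟨rfl, ?_, ?_, ?_⟩
  · simp [blkOf]
  · simp
  · simp

lemma gs_inv (a : ℕ → 𝕜) (n : ℕ) : Inv a n (gs a n) := by
  induction n with
  | zero => exact inv_zero a
  | succ n ih => exact (inv_step ih).2

lemma gs_mono (a : ℕ → 𝕜) : Monotone (gs a) :=
  monotone_nat_of_le_succ fun n => by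
    change gs a n ⊆ insert _ _
    exact Finset.subset_insert _ _

/-- The greedy enumeration. -/
noncomputable def ge (a : ℕ → 𝕜) (n : ℕ) : ℕ := nxt a (gs a n)

lemma gs_eq_image (a : ℕ → 𝕜) (n : ℕ) : gs a n = (Finset.range n).image (ge a) := by
  induction n with
  | zero => simp [gs]
  | succ n ih =>
    rw [Finset.range_add_one, Finset.image_insert, ← ih]
    rfl

lemma ge_injective (a : ℕ → 𝕜) : Function.Injective (ge a) := by
  have key : ∀ m n, m < n → ge a m ≠ ge a n := by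
    intro m n hmn heq
    have h1 : ge a n ∉ gs a n := (inv_step (gs_inv a n)).1
    have h2 : ge a m ∈ gs a n := by
      rw [gs_eq_image]
      exact Finset.mem_image_of_mem _ (Finset.mem_range.2 hmn)
    rw [heq] at h2
    exact h1 h2
  intro m n h
  rcases lt_trichotomy m n with hl | hl | hl
  · exact absurd h (key m n hl)
  · exact hl
  · exact absurd h.symm (key n m hl)

lemma ge_surjective (a : ℕ → 𝕜) : Function.Surjective (ge a) := by
  intro j
  set n := 2 ^ (blkOf j + 1) - 1 with hn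
  have hb : blkOf n = blkOf j + 1 := by
    rw [← mem_blk]
    unfold blk
    rw [Finset.mem_Ico]
    have h5 : 1 ≤ 2 ^ (blkOf j + 1) := Nat.one_le_two_pow
    refine ⟨by omega, ?_⟩
    rw [hn, pow_succ 2 (blkOf j + 1)]
    omega
  have h1 : j ∈ gs a n := by
    refine (gs_inv a n).lo ?_
    rw [Finset.mem_range, hb]
    exact (blkOf_bounds j).2
  rw [gs_eq_image, Finset.mem_image] at h1
  obtain ⟨m, _, hm⟩ := h1
  exact ⟨m, hm⟩

/-- The greedy permutation. -/
noncomputable def gp (a : ℕ → 𝕜) : Equiv.Perm ℕ :=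
  Equiv.ofBijective (ge a) ⟨ge_injective a, ge_surjective a⟩

lemma range_map_gp (a : ℕ → 𝕜) (n : ℕ) :
    (Finset.range n).map (gp a).toEmbedding = gs a n := by
  rw [gs_eq_image]
  ext j
  simp only [Finset.mem_map, Finset.mem_image, Equiv.coe_toEmbedding]
  rfl

lemma resid_bound (a : ℕ → 𝕜) (n k : ℕ) :
    ‖∑ j ∈ blk k \ gs a n, a j‖ ^ 2 ≤ ‖∑ j ∈ blk k, a j‖ ^ 2 + ∑ i ∈ blk k, ‖a i‖ ^ 2 := by
  have hI := gs_inv a n
  have h0 : 0 ≤ ∑ i ∈ blk k, ‖a i‖ ^ 2 := Finset.sum_nonneg fun _ _ => by positivity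
  rcases lt_trichotomy k (blkOf n) with hk | hk | hk
  · have : blk k \ gs a n = ∅ := by
      rw [Finset.sdiff_eq_empty_iff_subset]
      intro j hj
      refine hI.lo ?_
      unfold blk at hj
      rw [Finset.mem_Ico] at hj
      rw [Finset.mem_range]
      have : 2 ^ (k + 1) ≤ 2 ^ (blkOf n) := Nat.pow_le_pow_right (by norm_num) (by omega)
      omega
    rw [this]
    have h1 : 0 ≤ ‖∑ j ∈ blk k, a j‖ ^ 2 := by positivity
    simp only [Finset.sum_empty, norm_zero]
    norm_num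
    linarith
  · subst hk
    refine hI.res.trans ?_
    gcongr
    exact Finset.inter_subset_left
  · have : blk k \ gs a n = blk k := by
      rw [Finset.sdiff_eq_self_iff_disjoint, Finset.disjoint_left]
      intro j hj hj2
      have h2 := hI.hi hj2
      unfold blk at hj
      rw [Finset.mem_Ico] at hj
      rw [Finset.mem_range] at h2
      have : 2 ^ (blkOf n + 1) ≤ 2 ^ k := Nat.pow_le_pow_right (by norm_num) (by omega)
      omega
    rw [this]
    linarith

lemma normsq (y : H 𝕜) : ‖y‖ ^ 2 = ∑' j, ‖y j‖ ^ 2 := by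
  have := lp.norm_rpow_eq_tsum (p := 2) (by norm_num) y
  simpa using this

lemma summ (y : H 𝕜) : Summable fun j => ‖y j‖ ^ 2 := by
  have := (lp.memℓp y).summable (by norm_num)
  simpa using this

lemma summable_blk (a : ℕ → ℝ) (ha : ∀ i, 0 ≤ a i) (hs : Summable a) :
    Summable fun k => ∑ i ∈ blk k, a i := by
  refine summable_of_sum_range_le (c := ∑' i, a i) (fun k => Finset.sum_nonneg fun i _ => ha i) ?_
  intro n
  have : ∑ k ∈ Finset.range n, ∑ i ∈ blk k, a i = ∑ i ∈ Finset.range (2 ^ n - 1), a i := by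
    induction n with
    | zero => simp
    | succ n ih =>
      rw [Finset.sum_range_succ, ih]
      unfold blk
      have h3 : 2 ^ n ≤ 2 ^ (n + 1) := Nat.pow_le_pow_right (by norm_num) (by omega)
      rw [Finset.range_eq_Ico, Finset.sum_Ico_consecutive _ (Nat.zero_le _) (by omega),
        ← Finset.range_eq_Ico]
  rw [this]
  exact hs.sum_le_tsum _ fun i _ => ha i

/-- Every vector has a permuted expansion along its greedy permutation. -/
lemma tendsto_greedy (y : Esub 𝕜) :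
    Tendsto (fun n => ∑ i ∈ Finset.range n, (y : H 𝕜) (Sum.inl (gp (fun i => (y : H 𝕜) (Sum.inl i)) i))
      • x 𝕜 (gp (fun i => (y : H 𝕜) (Sum.inl i)) i)) atTop (𝓝 y) := by
  set a : ℕ → 𝕜 := fun i => (y : H 𝕜) (Sum.inl i) with ha
  have hform : ∀ n, ∑ i ∈ Finset.range n, (y : H 𝕜) (Sum.inl (gp a i)) • x 𝕜 (gp a i) =
      ∑ j ∈ gs a n, a j • x 𝕜 j := by
    intro n
    rw [← range_map_gp, ← sum_perm]
  simp only [hform]
  set S : ℕ → Esub 𝕜 := fun n => ∑ j ∈ gs a n, a j • x 𝕜 j with hS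
  have hb : ∀ k, (y : H 𝕜) (Sum.inr k) = ∑ i ∈ blk k, a i := fun k => y.2 k
  have hz1 : ∀ n j, ((y - S n : Esub 𝕜) : H 𝕜) (Sum.inl j) = if j ∈ gs a n then 0 else a j := by
    intro n j
    have : ((y - S n : Esub 𝕜) : H 𝕜) (Sum.inl j) = a j - (S n : H 𝕜) (Sum.inl j) := by
      simp [ha]
    rw [this, hS, sum_inl]
    split_ifs <;> simp
  have hz2 : ∀ n k, ((y - S n : Esub 𝕜) : H 𝕜) (Sum.inr k) = ∑ j ∈ blk k \ gs a n, a j := by
    intro n k
    have : ((y - S n : Esub 𝕜) : H 𝕜) (Sum.inr k) = (∑ i ∈ blk k, a i) - (S n : H 𝕜) (Sum.inr k) := by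
      rw [← hb]; simp
    rw [this, hS, sum_inr, sub_eq_iff_eq_add, Finset.inter_comm, add_comm]
    exact (Finset.sum_inter_add_sum_sdiff _ _ _).symm
  have hnorm : Tendsto (fun n => ‖((y - S n : Esub 𝕜) : H 𝕜)‖ ^ 2) atTop (𝓝 0) := by
    simp only [normsq]
    have h0 : (0 : ℝ) = ∑' _ : ℕ ⊕ ℕ, (0 : ℝ) := by simp
    rw [h0]
    refine tendsto_tsum_of_dominated_convergence
      (bound := Sum.elim (fun i => ‖a i‖ ^ 2)
        (fun k => ‖∑ j ∈ blk k, a j‖ ^ 2 + ∑ i ∈ blk k, ‖a i‖ ^ 2)) ?_ ?_ ?_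
    · have hs := summ (y : H 𝕜)
      have h1 : Summable fun i => ‖a i‖ ^ 2 := hs.comp_injective Sum.inl_injective
      have h2 : Summable fun k => ‖∑ j ∈ blk k, a j‖ ^ 2 := by
        have := hs.comp_injective (Sum.inr_injective (α := ℕ) (β := ℕ))
        refine this.congr fun k => ?_
        simp only [Function.comp, hb]
      refine Summable.sum _ ?_ ?_
      · exact h1
      · exact h2.add (summable_blk _ (fun i => by positivity) h1)
    · intro j
      rcases j with j | k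
      · refine tendsto_const_nhds.congr' ?_
        obtain ⟨m, hm⟩ := ge_surjective a j
        filter_upwards [eventually_gt_atTop m] with n hn
        rw [hz1, if_pos]
        · simp
        · rw [gs_eq_image, Finset.mem_image]
          exact ⟨m, Finset.mem_range.2 hn, hm⟩
      · refine tendsto_const_nhds.congr' ?_
        filter_upwards [eventually_ge_atTop (2 ^ (k + 1))] with n hn
        rw [hz2]
        have : blk k \ gs a n = ∅ := by
          rw [Finset.sdiff_eq_empty_iff_subset]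
          intro j hj
          refine (gs_inv a n).lo ?_
          unfold blk at hj
          rw [Finset.mem_Ico] at hj
          rw [Finset.mem_range]
          have h3 : k + 1 ≤ blkOf n := by
            unfold blkOf
            exact Nat.le_log_of_pow_le (by norm_num) (by omega)
          have : 2 ^ (k + 1) ≤ 2 ^ (blkOf n) := Nat.pow_le_pow_right (by norm_num) h3
          omega
        rw [this]
        simp
    · refine Eventually.of_forall fun n j => ?_
      rw [Real.norm_of_nonneg (by positivity)]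
      rcases j with j | k
      · rw [hz1]
        simp only [Sum.elim_inl]
        split_ifs
        · simp
        · exact le_rfl
      · rw [hz2]
        simp only [Sum.elim_inr]
        exact resid_bound a n k
  have h2 := (Real.continuous_sqrt.tendsto 0).comp hnorm
  rw [Real.sqrt_zero] at h2
  rw [tendsto_iff_norm_sub_tendsto_zero]
  refine h2.congr fun n => ?_
  simp only [Function.comp]
  rw [Real.sqrt_sq (norm_nonneg _), ← norm_neg, Submodule.coe_norm]
  congr 1
  simp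

lemma propertyU : PropertyU 𝕜 (x 𝕜) := by
  intro y
  refine ⟨fun n => (y : H 𝕜) (Sum.inl n), ⟨gp _, tendsto_greedy y⟩, ?_⟩
  rintro β ⟨π, hπ⟩
  funext n
  exact coeff_eq hπ n

lemma minimal : IsMinimal 𝕜 (x 𝕜) := by
  intro m hm
  have hc : Continuous fun z : Esub 𝕜 => (z : H 𝕜) (Sum.inl m) :=
    (cont_coord 𝕜 (Sum.inl m)).comp continuous_subtype_val
  have hclosed : IsClosed {z : Esub 𝕜 | (z : H 𝕜) (Sum.inl m) = 0} :=
    isClosed_eq hc continuous_const
  have hsub : (Submodule.span 𝕜 (x 𝕜 '' {n | n ≠ m}) : Set (Esub 𝕜)) ⊆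
      {z : Esub 𝕜 | (z : H 𝕜) (Sum.inl m) = 0} := by
    intro z hz
    simp only [Set.mem_ofPred_eq]
    induction hz using Submodule.span_induction with
    | mem z hz =>
      obtain ⟨n, hn, rfl⟩ := hz
      change xH 𝕜 n (Sum.inl m) = 0
      rw [xH_inl, if_neg (fun h => hn h.symm)]
    | zero => simp
    | add u v _ _ hu hv => simp [hu, hv]
    | smul c u _ hu => simp [hu]
  have h1 := closure_minimal hsub hclosed hm
  simp only [Set.mem_ofPred_eq] at h1
  change xH 𝕜 m (Sum.inl m) = 0 at h1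
  rw [xH_inl, if_pos rfl] at h1
  exact one_ne_zero h1

lemma separable : TopologicalSpace.SeparableSpace (Esub 𝕜) := by
  have h1 : TopologicalSpace.IsSeparable (Set.range (x 𝕜)) :=
    (Set.countable_range _).isSeparable
  have h2 : TopologicalSpace.IsSeparable
      (closure (Submodule.span 𝕜 (Set.range (x 𝕜)) : Set (Esub 𝕜))) :=
    (TopologicalSpace.IsSeparable.span (R := 𝕜) h1).closure
  have h3 : closure (Submodule.span 𝕜 (Set.range (x 𝕜)) : Set (Esub 𝕜)) = Set.univ := by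
    rw [Set.eq_univ_iff_forall]
    intro y
    refine mem_closure_of_tendsto (tendsto_greedy y) (Eventually.of_forall fun n => ?_)
    refine Submodule.sum_mem _ fun i _ => Submodule.smul_mem _ _ (Submodule.subset_span ⟨_, rfl⟩)
  rw [h3] at h2
  exact TopologicalSpace.isSeparable_univ_iff.1 h2

lemma exists_half (τ : Equiv.Perm ℕ) (k : ℕ) (hk : 1 ≤ k) :
    ∃ n, ((Finset.range n).map τ.toEmbedding ∩ blk k).card = 2 ^ (k - 1) := by
  set f : ℕ → ℕ := fun n => ((Finset.range n).map τ.toEmbedding ∩ blk k).card with hf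
  have hstep : ∀ n, f (n + 1) ≤ f n + 1 := by
    intro n
    simp only [hf]
    have : (Finset.range (n + 1)).map τ.toEmbedding ∩ blk k ⊆
        insert (τ n) ((Finset.range n).map τ.toEmbedding ∩ blk k) := by
      intro j hj
      rw [Finset.range_add_one, Finset.map_insert] at hj
      simp only [Finset.mem_inter, Finset.mem_insert] at hj ⊢
      rcases hj with ⟨h1 | h1, h2⟩
      · exact Or.inl h1
      · exact Or.inr ⟨h1, h2⟩
    exact (Finset.card_le_card this).trans (Finset.card_insert_le _ _)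
  have hbig : ∃ n, 2 ^ (k - 1) ≤ f n := by
    obtain ⟨M, hM⟩ := ((blk k).image τ.symm).bddAbove
    refine ⟨M + 1, ?_⟩
    have : (Finset.range (M + 1)).map τ.toEmbedding ∩ blk k = blk k := by
      rw [Finset.inter_eq_right]
      intro j hj
      rw [Finset.mem_map_equiv, Finset.mem_range]
      have := hM (Finset.mem_coe.2 (Finset.mem_image_of_mem τ.symm hj))
      omega
    simp only [hf]
    rw [this]
    have h3 : (blk k).card = 2 ^ (k + 1) - 1 - (2 ^ k - 1) := by simp [blk]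
    rw [h3]
    obtain ⟨m, rfl⟩ : ∃ m, k = m + 1 := ⟨k - 1, by omega⟩
    have h5 : 1 ≤ 2 ^ m := Nat.one_le_two_pow
    rw [Nat.add_sub_cancel, pow_succ 2 (m + 1), pow_succ 2 m]
    omega
  classical
  have h1 := Nat.find_spec hbig
  have h2 : ∀ m < Nat.find hbig, f m < 2 ^ (k - 1) := fun m hm => not_le.1 (Nat.find_min hbig hm)
  refine ⟨Nat.find hbig, le_antisymm ?_ h1⟩
  rcases Nat.eq_zero_or_pos (Nat.find hbig) with h0 | h0
  · rw [h0]; simp
  · have h3 := h2 (Nat.find hbig - 1) (by omega)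
    have h4 := hstep (Nat.find hbig - 1)
    rw [Nat.sub_add_cancel h0] at h4
    change f (Nat.find hbig) ≤ _
    omega

lemma card_blk (k : ℕ) : (blk k).card = 2 ^ k := by
  have h3 : (blk k).card = 2 ^ (k + 1) - 1 - (2 ^ k - 1) := by simp [blk]
  have h5 : 1 ≤ 2 ^ k := Nat.one_le_two_pow
  rw [h3, pow_succ 2 k]
  omega

open Classical in
/-- The bad coefficients for the order `τ`. -/
noncomputable def bad (𝕜 : Type) [RCLike 𝕜] (B : ℕ → Finset ℕ) (i : ℕ) : 𝕜 :=
  if blkOf i = 0 then 0 else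
    if i ∈ B (blkOf i) then (2 / 2 ^ (blkOf i) : 𝕜) else -(2 / 2 ^ (blkOf i) : 𝕜)

lemma norm_bad_le (B : ℕ → Finset ℕ) (i : ℕ) : ‖bad 𝕜 B i‖ ≤ 4 / (i + 1 : ℝ) := by
  have h1 := (blkOf_bounds i).2
  have h2 : ((i : ℝ) + 1) ≤ 2 * 2 ^ (blkOf i) := by
    have : i + 1 ≤ 2 * 2 ^ (blkOf i) := by
      rw [pow_succ] at h1; omega
    exact_mod_cast this
  have h3 : ‖(2 / 2 ^ (blkOf i) : 𝕜)‖ ≤ 4 / (i + 1 : ℝ) := by
    rw [norm_div, norm_pow, RCLike.norm_ofNat]
    rw [div_le_div_iff₀ (by positivity) (by positivity)]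
    linarith
  unfold bad
  split_ifs
  · simp; positivity
  · exact h3
  · rw [norm_neg]; exact h3

lemma not_basis (τ : Equiv.Perm ℕ) : ¬ IsSchauderBasis 𝕜 (x 𝕜 ∘ τ) := by
  intro hbasis
  have hex : ∀ k, ∃ n, 1 ≤ k → ((Finset.range n).map τ.toEmbedding ∩ blk k).card = 2 ^ (k - 1) := by
    intro k
    rcases Nat.lt_or_ge k 1 with hk | hk
    · exact ⟨0, fun h => by omega⟩
    · obtain ⟨n, hn⟩ := exists_half τ k hk
      exact ⟨n, fun _ => hn⟩
  choose nk hnk using hex
  set B : ℕ → Finset ℕ := fun k => (Finset.range (nk k)).map τ.toEmbedding ∩ blk k with hB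
  set a : ℕ → 𝕜 := bad 𝕜 B with ha
  have hsum : Summable fun j : ℕ ⊕ ℕ => ‖(Sum.elim a (fun _ => 0) : ℕ ⊕ ℕ → 𝕜) j‖ ^ 2 := by
    refine Summable.sum _ ?_ ?_
    · have h1 : Summable fun i : ℕ => (16 : ℝ) * (1 / ((i : ℝ) + 1) ^ 2) := by
        refine Summable.mul_left _ ?_
        have := (summable_nat_add_iff (f := fun n : ℕ => 1 / (n : ℝ) ^ 2) 1).2
          (Real.summable_one_div_nat_pow.2 (by norm_num))
        refine this.congr fun i => ?_
        push_cast; rfl
      refine Summable.of_nonneg_of_le (fun i => by simp only [Function.comp]; positivity)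
        (fun i => ?_) h1
      simp only [Function.comp, Sum.elim_inl]
      have h2 := norm_bad_le (𝕜 := 𝕜) B i
      calc ‖a i‖ ^ 2 ≤ (4 / (i + 1 : ℝ)) ^ 2 := by
            exact pow_le_pow_left₀ (norm_nonneg _) h2 2
        _ = 16 * (1 / ((i : ℝ) + 1) ^ 2) := by rw [div_pow]; ring
    · have : ((fun j : ℕ ⊕ ℕ => ‖(Sum.elim a (fun _ => 0) : ℕ ⊕ ℕ → 𝕜) j‖ ^ 2) ∘ Sum.inr) =
          fun _ : ℕ => (0 : ℝ) := by
        funext k; simp
      rw [this]; exact summable_zero
  have hmem : Memℓp (Sum.elim a (fun _ => 0) : ℕ ⊕ ℕ → 𝕜) 2 := by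
    refine memℓp_gen ?_
    simpa using hsum
  set yH : H 𝕜 := ⟨_, hmem⟩ with hyH
  have hyl : ∀ i, yH (Sum.inl i) = a i := fun i => rfl
  have hyr : ∀ k, yH (Sum.inr k) = 0 := fun k => rfl
  have hhalf : ∀ k, 1 ≤ k → ∑ i ∈ B k, a i = 1 := by
    intro k hk
    have h1 : ∀ i ∈ B k, a i = (2 / 2 ^ k : 𝕜) := by
      intro i hi
      have h2 : blkOf i = k := mem_blk.1 (Finset.mem_inter.1 hi).2
      rw [ha]; unfold bad
      rw [h2, if_neg (by omega), if_pos hi]
    rw [Finset.sum_congr rfl h1, Finset.sum_const, hnk k hk, nsmul_eq_mul]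
    obtain ⟨m, rfl⟩ : ∃ m, k = m + 1 := ⟨k - 1, by omega⟩
    rw [Nat.add_sub_cancel, pow_succ]
    push_cast
    field_simp
  have hzero : ∀ k, ∑ i ∈ blk k, a i = 0 := by
    intro k
    rcases Nat.eq_zero_or_pos k with rfl | hk
    · refine Finset.sum_eq_zero fun i hi => ?_
      rw [ha]; unfold bad
      rw [if_pos (mem_blk.1 hi)]
    · have hsub : B k ⊆ blk k := Finset.inter_subset_right
      rw [← Finset.sum_sdiff hsub, hhalf k hk]
      have h1 : ∀ i ∈ blk k \ B k, a i = -(2 / 2 ^ k : 𝕜) := by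
        intro i hi
        rw [Finset.mem_sdiff] at hi
        have h2 : blkOf i = k := mem_blk.1 hi.1
        rw [ha]; unfold bad
        rw [h2, if_neg (by omega), if_neg hi.2]
      have hcard : (blk k \ B k).card = 2 ^ (k - 1) := by
        rw [Finset.card_sdiff_of_subset hsub, hnk k hk, card_blk]
        obtain ⟨m, rfl⟩ : ∃ m, k = m + 1 := ⟨k - 1, by omega⟩
        rw [Nat.add_sub_cancel, pow_succ]
        omega
      rw [Finset.sum_congr rfl h1, Finset.sum_const, hcard, nsmul_eq_mul]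
      obtain ⟨m, rfl⟩ : ∃ m, k = m + 1 := ⟨k - 1, by omega⟩
      rw [Nat.add_sub_cancel, pow_succ]
      push_cast
      field_simp
      norm_num
  have hyE : yH ∈ Esub 𝕜 := by
    intro k
    simp only [hyr, hyl]
    exact (hzero k).symm
  obtain ⟨α, hα, -⟩ := hbasis ⟨yH, hyE⟩
  set c : ℕ → 𝕜 := fun n => α (τ.symm n) with hc
  have hα2 : Tendsto (fun n => ∑ i ∈ Finset.range n, c (τ i) • x 𝕜 (τ i)) atTop
      (𝓝 (⟨yH, hyE⟩ : Esub 𝕜)) := by
    refine hα.congr fun n => ?_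
    refine Finset.sum_congr rfl fun i _ => ?_
    simp [hc]
  have hca : ∀ n, c n = a n := fun n => coeff_eq hα2 n
  rw [tendsto_iff_norm_sub_tendsto_zero] at hα2
  have hev := (tendsto_order.1 hα2).2 1 one_pos
  rw [eventually_atTop] at hev
  obtain ⟨N, hN⟩ := hev
  -- choose a block beyond N
  obtain ⟨k, hk⟩ : ∃ k, N + 1 ≤ 2 ^ (k - 1) ∧ 1 ≤ k := ⟨N + 2, by
    have h6 : N + 2 - 1 = N + 1 := by omega
    rw [h6]
    exact (Nat.lt_two_pow_self (n := N + 1)).le, by omega⟩
  have hnN : N ≤ nk k := by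
    have h1 := hnk k hk.2
    have h2 : ((Finset.range (nk k)).map τ.toEmbedding ∩ blk k).card ≤ nk k := by
      refine (Finset.card_le_card Finset.inter_subset_left).trans ?_
      rw [Finset.card_map, Finset.card_range]
    omega
  have h1 := hN (nk k) hnN
  have h2 : ‖((∑ i ∈ Finset.range (nk k), c (τ i) • x 𝕜 (τ i) - ⟨yH, hyE⟩ : Esub 𝕜) : H 𝕜)
      (Sum.inr k)‖ ≤ ‖(∑ i ∈ Finset.range (nk k), c (τ i) • x 𝕜 (τ i) - ⟨yH, hyE⟩ : Esub 𝕜)‖ := by
    rw [Submodule.coe_norm]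
    exact lp.norm_apply_le_norm (by norm_num) _ _
  have h3 : ((∑ i ∈ Finset.range (nk k), c (τ i) • x 𝕜 (τ i) - ⟨yH, hyE⟩ : Esub 𝕜) : H 𝕜)
      (Sum.inr k) = 1 := by
    have : ((∑ i ∈ Finset.range (nk k), c (τ i) • x 𝕜 (τ i) - ⟨yH, hyE⟩ : Esub 𝕜) : H 𝕜)
      (Sum.inr k) = ((∑ i ∈ Finset.range (nk k), c (τ i) • x 𝕜 (τ i) : Esub 𝕜) : H 𝕜) (Sum.inr k)
        - yH (Sum.inr k) := by
      rw [Submodule.coe_sub, lp.coeFn_sub]; rfl
    rw [this, sum_perm, sum_inr, hyr, sub_zero, ← hhalf k hk.2]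
    exact Finset.sum_congr rfl fun i _ => hca i
  rw [h3, norm_one] at h2
  linarith

end Construction

/-- **Main result.** For real and for complex scalars there are a separable Hilbert space `E` and
a minimal sequence in `E` with property (U) no permutation of which is a Schauder basis. -/
theorem result (𝕜 : Type) [RCLike 𝕜] :
    ∃ (E : Type) (_ : NormedAddCommGroup E) (_ : InnerProductSpace 𝕜 E) (_ : CompleteSpace E)
      (_ : TopologicalSpace.SeparableSpace E) (x : ℕ → E),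
      PropertyU 𝕜 x ∧ IsMinimal 𝕜 x ∧ ∀ τ : Equiv.Perm ℕ, ¬ IsSchauderBasis 𝕜 (x ∘ τ) :=
  ⟨Esub 𝕜, inferInstance, inferInstance, (isClosed_Esub 𝕜).completeSpace_coe, separable,
    x 𝕜, propertyU, minimal, not_basis⟩

end Pool.Agent.Results.MP_514f39_an.HilbertCounterexample
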